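import Mathlib

set_option autoImplicit false

namespace Pool.Agent.Results.MP_9fd99d_al.Classif

open Equiv Filter

def vsub (W : Set (FreeGroup ℕ)) (G : Type) [Group G] : Subgroup G :=
  Subgroup.closure {u | ∃ w ∈ W, ∃ f : FreeGroup ℕ →* G, f w = u}

instance (W : Set (FreeGroup ℕ)) (G : Type) [Group G] : (vsub W G).Normal := by
  refine ⟨fun x hx g => ?_⟩
  have h : vsub W G ≤ (vsub W G).comap (MulAut.conj g).toMonoidHom := by
    refine (Subgroup.closure_le _).2 ?_
    rintro u ⟨w, hw, f, rfl⟩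
    exact Subgroup.subset_closure ⟨w, hw, (MulAut.conj g).toMonoidHom.comp f, rfl⟩
  exact h hx

def Sat (W : Set (FreeGroup ℕ)) (G : Type) [Group G] : Prop :=
  ∀ w ∈ W, ∀ f : FreeGroup ℕ →* G, f w = 1

theorem vsub_map {W : Set (FreeGroup ℕ)} {G K : Type} [Group G] [Group K] (φ : G →* K) {x : G}
    (hx : x ∈ vsub W G) : φ x ∈ vsub W K := by
  have h : vsub W G ≤ (vsub W K).comap φ := by
    refine (Subgroup.closure_le _).2 ?_
    rintro u ⟨w, hw, f, rfl⟩
    exact Subgroup.subset_closure ⟨w, hw, φ.comp f, rfl⟩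
  exact h hx

theorem vsub_bot {W : Set (FreeGroup ℕ)} {G : Type} [Group G] (h : Sat W G) : vsub W G = ⊥ := by
  rw [eq_bot_iff]
  refine (Subgroup.closure_le _).2 ?_
  rintro u ⟨w, hw, f, rfl⟩
  exact h w hw f

theorem sat_surj {W : Set (FreeGroup ℕ)} {G K : Type} [Group G] [Group K] (φ : G →* K)
    (hφ : Function.Surjective φ) (h : ∀ w ∈ W, ∀ f : FreeGroup ℕ →* G, φ (f w) = 1) :
    Sat W K := by
  intro w hw f
  choose s hs using fun i => hφ (f (FreeGroup.of i))
  have h1 : φ.comp (FreeGroup.lift s) = f := by ext i : 1; simp [hs]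
  rw [← h1]
  exact h w hw _

abbrev PP (Q T : Type) : Type := ∀ B : Finset Q, Perm (B × T)

theorem ev_mem {Q : Type} (b : Q) : ∀ᶠ B : Finset Q in atTop, b ∈ B :=
  (eventually_ge_atTop {b}).mono fun _ h => h (Finset.mem_singleton_self b)

def As (Q T : Type) [Group Q] : Subgroup (PP Q T × Q) where
  carrier := {p | ∀ b : Q, ∀ᶠ B : Finset Q in atTop, ∀ y : B × T, (y.1 : Q) = b →
    ((p.1 B y).1 : Q) = p.2 * b ∧ (p.1 B y).2 = y.2}
  one_mem' := fun b => Eventually.of_forall fun B y hy => ⟨by simpa using hy, rfl⟩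
  mul_mem' := by
    intro p r hp hr b
    filter_upwards [hr b, hp (r.2 * b)] with B h1 h2 y hy
    obtain ⟨e1, e2⟩ := h1 y hy
    obtain ⟨e3, e4⟩ := h2 _ e1
    exact ⟨by rw [Prod.snd_mul, mul_assoc]; exact e3, e4.trans e2⟩
  inv_mem' := by
    intro p hp b
    filter_upwards [hp (p.2⁻¹ * b), ev_mem (p.2⁻¹ * b)] with B h1 h2 y hy
    obtain ⟨e1, e2⟩ := h1 (⟨_, h2⟩, y.2) rfl
    have e3 : p.1 B (⟨_, h2⟩, y.2) = y :=
      Prod.ext (Subtype.ext (by rw [e1, hy, mul_inv_cancel_left])) e2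
    have e4 : p⁻¹.1 B y = (⟨_, h2⟩, y.2) := by
      change (p.1 B)⁻¹ y = _
      rw [Perm.inv_eq_iff_eq, e3]
    rw [e4]
    exact ⟨rfl, rfl⟩

def ev (Q T : Type) [Group Q] (B : Finset Q) : As Q T →* Perm (B × T) :=
  (Pi.evalMonoidHom _ B).comp ((MonoidHom.fst _ _).comp (As Q T).subtype)

def rho (Q T : Type) [Group Q] : As Q T →* Q := (MonoidHom.snd _ _).comp (As Q T).subtype

theorem As_sep {Q T : Type} [Group Q] [Nonempty T] (p : As Q T) (h : ∀ B, ev Q T B p = 1) :
    p = 1 := by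
  obtain ⟨t⟩ := ‹Nonempty T›
  have h1 : p.1.1 = 1 := funext h
  obtain ⟨B, e1, e2⟩ := ((p.2 1).and (ev_mem 1)).exists
  have h2 := (e1 (⟨1, e2⟩, t) rfl).1
  rw [h1, mul_one] at h2
  exact Subtype.ext (Prod.ext h1 h2.symm)

theorem As_rf (Q T : Type) [Group Q] [Nonempty T] [Finite T] :
    Group.ResiduallyFinite (As Q T) := by
  refine Group.residuallyFinite_of_forall_exists_finite_monoidHom.{0} fun g hg => ?_
  by_contra h
  push Not at h
  exact hg (As_sep g fun B => h _ _ inferInstance (ev Q T B))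

def fib (B T : Type) : (T → Perm B) →* Perm (B × T) :=
  MonoidHom.mk' (fun f => Equiv.prodCongrLeft f) (fun _ _ => by ext y <;> rfl)

theorem fib_apply {B T : Type} (f : T → Perm B) (y : B × T) : fib B T f y = (f y.2 y.1, y.2) :=
  rfl

def Dg (Q T : Type) [Group Q] : Subgroup (As Q T) where
  carrier := {p | ∀ B : Finset Q, ∃ σ : Perm B, ev Q T B p = fib B T fun _ => σ}
  one_mem' := fun B => ⟨1, by rw [map_one]; exact (map_one (fib B T)).symm⟩
  mul_mem' := by
    intro p r hp hr B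
    obtain ⟨a, ha⟩ := hp B
    obtain ⟨b, hb⟩ := hr B
    exact ⟨a * b, by rw [map_mul, ha, hb, ← map_mul]; rfl⟩
  inv_mem' := by
    intro p hp B
    obtain ⟨a, ha⟩ := hp B
    exact ⟨a⁻¹, by rw [map_inv, ha, ← map_inv]; rfl⟩

theorem Dg_surj (Q T : Type) [Group Q] :
    Function.Surjective ((rho Q T).comp (Dg Q T).subtype) := by
  classical
  intro q
  have h : ∀ B : Finset Q, ∃ σ : Perm B, ∀ y : B, q * y ∈ B → (σ y : Q) = q * y := by
    intro B
    obtain ⟨σ, hσ⟩ := Perm.exists_extending_pair (fun y : {y : B // q * y ∈ B} => y.1)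
      (fun y => (⟨q * y.1, y.2⟩ : B)) Subtype.val_injective (fun a b h =>
        Subtype.ext (Subtype.ext (mul_left_cancel (congrArg Subtype.val h))))
    exact ⟨σ, fun y hy => congrArg Subtype.val (hσ ⟨y, hy⟩)⟩
  choose σ hσ using h
  refine ⟨⟨⟨(fun B : Finset Q => fib B T fun _ => σ B, q), fun b => ?_⟩, fun B => ⟨σ B, rfl⟩⟩, rfl⟩
  filter_upwards [ev_mem (q * b)] with B hB y hy
  subst hy
  exact ⟨hσ B y.1 hB, rfl⟩

theorem exists_finite {W : Set (FreeGroup ℕ)} {G : Type} [Group G] (h : ¬ Sat W G) :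
    ∃ (X : Type) (_ : Finite X), ¬ Sat W (Perm X) := by
  by_contra hc
  push Not at hc
  refine h (sat_surj ((rho G Unit).comp (Dg G Unit).subtype) (Dg_surj G Unit) fun w hw f => ?_)
  have : (Dg G Unit).subtype (f w) = 1 := As_sep _ fun B =>
    hc _ inferInstance w hw ((ev G Unit B).comp ((Dg G Unit).subtype.comp f))
  rw [MonoidHom.comp_apply, this, map_one]

def sh (X : Type) (k : ZMod 4) : Perm (X × ZMod 4) :=
  Equiv.prodCongrRight fun _ => Equiv.addRight k

theorem sh_mem {W : Set (FreeGroup ℕ)} {X : Type} [Finite X] (h : ¬ Sat W (Perm X)) :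
    sh X 2 ∈ vsub W (Perm (X × ZMod 4)) := by
  classical
  have := Fintype.ofFinite X
  unfold Sat at h
  push Not at h
  obtain ⟨w, hw, f, hf⟩ := h
  have hX : Nontrivial X := by
    by_contra hn
    rw [not_nontrivial_iff_subsingleton] at hn
    exact hf (Subsingleton.elim _ _)
  let j : Perm X →* Perm (X × ZMod 4) := (fib X (ZMod 4)).comp (Pi.constMonoidHom _ _)
  have h1 : j (f w) ≠ 1 := by
    intro e
    apply hf
    ext x
    exact congrArg Prod.fst (DFunLike.congr_fun e (x, 0))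
  have h2 : j (f w) ∈ vsub W (Perm (X × ZMod 4)) :=
    Subgroup.subset_closure ⟨w, hw, j.comp f, rfl⟩
  have h3 : Nontrivial (vsub W (Perm (X × ZMod 4))) :=
    ⟨⟨_, h2⟩, 1, fun e => h1 (congrArg Subtype.val e)⟩
  refine Perm.alternatingGroup_le_of_normal ?_ h3 ?_
  · have := Finite.one_lt_card (α := X)
    rw [Nat.card_prod, Nat.card_zmod]; omega
  · have e : sh X 2 = sh X 1 * sh X 1 := by
      ext y
      · rfl
      · change y.2 + 2 = y.2 + 1 + 1
        ring
    rw [Perm.mem_alternatingGroup, e, map_mul, Int.units_mul_self]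

theorem conj_inv {B : Type} [Finite B] (σ : Perm B) :
    ∃ c : Perm B, c * σ⁻¹ * c⁻¹ = σ ∧ ∀ b, σ b = b → c b = b := by
  classical
  have := Fintype.ofFinite B
  have h1 : ∀ x, σ (σ x) ≠ σ x ↔ σ x ≠ x := fun x => σ.injective.ne_iff
  let τ := σ.subtypePerm (p := fun x => σ x ≠ x) h1
  have e : Perm.ofSubtype τ = σ := Perm.ofSubtype_subtypePerm h1 fun _ h => h
  obtain ⟨c, hc⟩ := isConj_iff.1 (Perm.isConj_of_cycleType_eq (Perm.cycleType_inv τ))
  refine ⟨Perm.ofSubtype c, ?_, fun b hb => Perm.ofSubtype_apply_of_not_mem c (not_not.2 hb)⟩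
  have e2 := congrArg Perm.ofSubtype hc
  rwa [map_mul, map_mul, map_inv, map_inv, e] at e2

open Classical in
noncomputable def ph {B : Type} (T : Type) (σ : Perm B) : Perm T →* Perm (B × T) :=
  MonoidHom.mk' (fun g => Equiv.prodCongrRight fun b => if σ b = b then 1 else g) (fun g h => by
    ext y
    · rfl
    · by_cases hy : σ y.1 = y.1 <;> simp [hy, Equiv.prodCongrRight])

open Classical in
theorem ph_apply {B T : Type} (σ : Perm B) (g : Perm T) (y : B × T) :
    ph T σ g y = (y.1, if σ y.1 = y.1 then y.2 else g y.2) := by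
  by_cases hy : σ y.1 = y.1 <;> simp [ph, hy, Equiv.prodCongrRight]

def lo (k : ZMod 4) : Prop := k = 0 ∨ k = 1
instance (k : ZMod 4) : Decidable (lo k) := by unfold lo; infer_instance
theorem lo_add : ∀ k, lo (k + 2) ↔ ¬ lo k := by decide

theorem key_id {B X : Type} (σ c : Perm B) (hc : c * σ⁻¹ * c⁻¹ = σ) :
    fib B (X × ZMod 4) (fun u => if lo u.2 then 1 else c) *
      ((ph _ σ (sh X 2))⁻¹ * (fib B (X × ZMod 4) (fun u => if lo u.2 then 1 else σ) *
        ph _ σ (sh X 2) * (fib B (X × ZMod 4) (fun u => if lo u.2 then 1 else σ))⁻¹)) *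
      (fib B (X × ZMod 4) (fun u => if lo u.2 then 1 else c))⁻¹ =
    fib B (X × ZMod 4) fun _ => σ := by
  have h1 : fib B (X × ZMod 4) (fun u => if lo u.2 then 1 else σ) * ph _ σ (sh X 2) =
      ph _ σ (sh X 2) * fib B (X × ZMod 4) (fun u => if lo u.2 then σ else 1) := by
    refine Equiv.ext fun y => ?_
    have hs : ∀ u : X × ZMod 4, (sh X 2 u).2 = u.2 + 2 := fun _ => rfl
    simp only [Perm.mul_apply, ph_apply, fib_apply]
    by_cases hy : σ y.1 = y.1 <;> by_cases hl : lo y.2.2 <;> simp [hy, hl, hs, lo_add]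
  rw [h1, mul_assoc (ph _ σ (sh X 2)), inv_mul_cancel_left, ← map_inv, ← map_inv, ← map_mul,
    ← map_mul, ← map_mul]
  congr 1
  funext u
  by_cases hl : lo u.2 <;> simp [hl, hc]

theorem ker_le {W : Set (FreeGroup ℕ)} {X : Type} [Finite X] (hX : ¬ Sat W (Perm X)) {Q : Type}
    [Group Q] (p : As Q (X × ZMod 4)) (hp : p ∈ Dg Q (X × ZMod 4)) (h1 : rho Q _ p = 1) :
    p ∈ vsub W (As Q (X × ZMod 4)) := by
  choose σ hσ using hp
  choose c hc hc' using fun B : Finset Q => conj_inv (σ B)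
  have hσ' : ∀ B : Finset Q, p.1.1 B = fib B _ fun _ => σ B := hσ
  have h1' : p.1.2 = 1 := h1
  have hne : Nonempty X := by
    by_contra hn
    rw [not_nonempty_iff] at hn
    exact hX fun w _ f => Subsingleton.elim _ _
  obtain ⟨x⟩ := hne
  have mem : ∀ g : PP Q (X × ZMod 4), (∀ B y, σ B y.1 = y.1 → g B y = y) →
      (g, (1 : Q)) ∈ As Q (X × ZMod 4) := by
    intro g hg b
    filter_upwards [p.2 b] with B hB y hy
    have e := (hB (y.1, (x, 0)) hy).1
    rw [hσ', h1', one_mul, ← hy] at e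
    have e2 := hg B y (Subtype.ext e)
    change ((g B y).1 : Q) = 1 * b ∧ (g B y).2 = y.2
    rw [e2, one_mul]
    exact ⟨hy, rfl⟩
  let φ : Perm (X × ZMod 4) →* As Q (X × ZMod 4) :=
    MonoidHom.mk' (fun g => ⟨(fun B => ph _ (σ B) g, 1), mem _ fun B y hy => by
      rw [ph_apply, if_pos hy]⟩) (fun g h => Subtype.ext (Prod.ext (funext fun B =>
        map_mul (ph _ (σ B)) g h) (one_mul 1).symm))
  let α : As Q (X × ZMod 4) := ⟨(fun B : Finset Q => fib B _ fun u => if lo u.2 then 1 else σ B, 1),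
    mem _ fun B y hy => by
      rw [fib_apply]; by_cases hl : lo y.2.2 <;> simp [hl, hy]⟩
  let γ : As Q (X × ZMod 4) := ⟨(fun B : Finset Q => fib B _ fun u => if lo u.2 then 1 else c B, 1),
    mem _ fun B y hy => by
      rw [fib_apply]; by_cases hl : lo y.2.2 <;> simp [hl, hc' B _ hy]⟩
  have ht := vsub_map φ (sh_mem hX)
  have e : p = γ * ((φ (sh X 2))⁻¹ * (α * φ (sh X 2) * α⁻¹)) * γ⁻¹ := by
    refine Subtype.ext (Prod.ext (funext fun B => ?_) ?_)
    · rw [hσ']
      exact (key_id (σ B) (c B) (hc B)).symm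
    · rw [h1']
      change (1 : Q) = 1 * (1⁻¹ * (1 * 1 * 1⁻¹)) * 1⁻¹
      simp
  rw [e]
  have hn : (vsub W (As Q (X × ZMod 4))).Normal := inferInstance
  exact hn.conj_mem _ (mul_mem (inv_mem ht) (hn.conj_mem _ ht α)) γ

theorem result (W : Set (FreeGroup ℕ)) :
    (∀ (G : Type) [Group G], Group.ResiduallyFinite G → Group.ResiduallyFinite (G ⧸ vsub W G)) ↔
      (∀ (G : Type) [Group G], Sat W G) ∨
        ∀ (G : Type) [Group G], Sat W G → Group.ResiduallyFinite G := by
  constructor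
  · intro h
    by_contra hc
    push Not at hc
    obtain ⟨⟨G, _, hG⟩, Q, _, hQ, hQ'⟩ := hc
    obtain ⟨X, _, hX⟩ := exists_finite hG
    have hne : Nonempty X := by
      by_contra hn
      rw [not_nonempty_iff] at hn
      exact hX fun w _ f => Subsingleton.elim _ _
    have hE := h _ (As_rf Q (X × ZMod 4))
    apply hQ'
    refine Group.residuallyFinite_of_forall_exists_finite_monoidHom.{0} fun q hq => ?_
    obtain ⟨d, rfl⟩ := Dg_surj Q (X × ZMod 4) q
    have h1 : (QuotientGroup.mk d.1 : _ ⧸ vsub W (As Q (X × ZMod 4))) ≠ 1 := by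
      intro e
      have h2 := vsub_map (rho Q _) ((QuotientGroup.eq_one_iff _).1 e)
      rw [vsub_bot hQ] at h2
      exact hq h2
    obtain ⟨N, hN⟩ := Group.exists_finiteIndexNormalSubgroup_notMem _ h1
    let ψ := (QuotientGroup.mk' N.toSubgroup).comp
      ((QuotientGroup.mk' (vsub W (As Q (X × ZMod 4)))).comp (Dg Q (X × ZMod 4)).subtype)
    have hk : ((rho Q _).comp (Dg Q (X × ZMod 4)).subtype).ker ≤ ψ.ker := by
      intro p hp
      have h2 : QuotientGroup.mk' (vsub W (As Q (X × ZMod 4))) p.1 = 1 :=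
        (QuotientGroup.eq_one_iff _).2 (ker_le hX p.1 p.2 hp)
      change QuotientGroup.mk' N.toSubgroup (QuotientGroup.mk' _ p.1) = 1
      rw [h2, map_one]
    refine ⟨_, inferInstance, inferInstance,
      MonoidHom.liftOfSurjective _ (Dg_surj Q (X × ZMod 4)) ⟨ψ, hk⟩, ?_⟩
    rw [MonoidHom.liftOfRightInverse_comp_apply]
    intro e
    exact hN ((QuotientGroup.eq_one_iff _).1 e)
  · rintro (h | h) G _ hG
    · rw [Group.residuallyFinite_iff_exists_finiteIndex] at hG ⊢
      let e : G ⧸ vsub W G ≃* G :=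
        (QuotientGroup.quotientMulEquivOfEq (vsub_bot (h G))).trans QuotientGroup.quotientBot
      intro g hg
      obtain ⟨H, hH, hg'⟩ := hG (e g) (by simpa using hg)
      exact ⟨H.comap e.toMonoidHom, ⟨by
        rw [Subgroup.index_comap_of_surjective _ e.surjective]; exact hH.index_ne_zero⟩, hg'⟩
    · exact h _ (sat_surj (QuotientGroup.mk' _) (QuotientGroup.mk'_surjective _) fun w hw f =>
        (QuotientGroup.eq_one_iff _).2 (Subgroup.subset_closure ⟨w, hw, f, rfl⟩))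

end Pool.Agent.Results.MP_9fd99d_al.Classif
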